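import Mathlib
import Pool.Agent.Lib.MP_aafbbc_al.Basic

set_option autoImplicit false

namespace Pool.Agent.Results.MP_aafbbc_al.QuaternionUnits

/-- `G` is not isomorphic to a direct product of two nontrivial groups. -/
def Indecomposable (G : Type) [Group G] : Prop :=
  ∀ (A B : Type) [Group A] [Group B], Nonempty (G ≃* A × B) → Subsingleton A ∨ Subsingleton B

/-- `G` is realizable in characteristic `n`: it is the unit group of a finite ring (associative,
with identity, not necessarily commutative) of characteristic `n`. -/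
def RealizableInChar (G : Type) [Group G] (n : ℕ) : Prop :=
  ∃ (R : Type) (_ : Ring R), Finite R ∧ CharP R n ∧ Nonempty (Rˣ ≃* G)

/-- For every `m ≥ 6`, the unit group of the ring of Lipschitz quaternions modulo `2^m`
(quaternions with coefficients in `ℤ/2^m`) is a finite indecomposable 2-group which is realizable
in characteristic `2^m` but not in characteristic `2`. -/
theorem result :
    ∀ m : ℕ, 6 ≤ m →
      Finite (Quaternion (ZMod (2 ^ m)))ˣ ∧ Nontrivial (Quaternion (ZMod (2 ^ m)))ˣ ∧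
      IsPGroup 2 (Quaternion (ZMod (2 ^ m)))ˣ ∧
      Indecomposable (Quaternion (ZMod (2 ^ m)))ˣ ∧
      RealizableInChar (Quaternion (ZMod (2 ^ m)))ˣ (2 ^ m) ∧
      ¬ RealizableInChar (Quaternion (ZMod (2 ^ m)))ˣ 2 := by
  intro m hm
  have hfin : Finite (Quaternion (ZMod (2 ^ m)))ˣ := inferInstance
  -- the element `1 + i + j`, of order `2^m`
  have hgu : IsUnit (Lib.MP_aafbbc_al.mkq 1 1 1 0 : Quaternion (ZMod (2 ^ m))) := by
    obtain ⟨a, b, hab⟩ := Lib.MP_aafbbc_al.pow_g_aux (Z := ZMod (2 ^ m)) (m - 2)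
    rw [show m - 2 + 2 = m by omega, Lib.MP_aafbbc_al.two_pow_zero] at hab
    have h1 : (Lib.MP_aafbbc_al.mkq 1 1 1 0 : Quaternion (ZMod (2 ^ m))) ^ (2 ^ m) = 1 := by
      rw [hab]
      apply Quaternion.ext <;> simp <;> rfl
    exact IsUnit.of_pow_eq_one h1 (by positivity)
  obtain ⟨g, hg⟩ := hgu
  have hg1 : g ^ (2 ^ m) = 1 := Lib.MP_aafbbc_al.pow_eq_one (by omega) g
  have hg2 : g ^ (2 ^ (m - 1)) ≠ 1 := by
    intro h
    obtain ⟨a, b, hab⟩ := Lib.MP_aafbbc_al.pow_g_aux (Z := ZMod (2 ^ m)) (m - 3)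
    rw [show m - 3 + 2 = m - 1 by omega, ← hg, ← Units.val_pow_eq_pow_val, h] at hab
    have h2 := congrArg QuaternionAlgebra.imI hab
    have h3 : (0 : ZMod (2 ^ m)) = 2 ^ (m - 1) * (1 + 2 * b) := h2
    have h4 : (2 : ZMod (2 ^ m)) ^ (m - 1) * 2 = 0 := by
      rw [← pow_succ, show m - 1 + 1 = m by omega, Lib.MP_aafbbc_al.two_pow_zero]
    have h5 : (2 : ZMod (2 ^ m)) ^ (m - 1) = 0 := by
      linear_combination -h3 - b * h4
    have h6 : ((2 ^ (m - 1) : ℕ) : ZMod (2 ^ m)) = 0 := by push_cast; exact h5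
    rw [ZMod.natCast_eq_zero_iff] at h6
    have h7 := Nat.le_of_dvd (by positivity) h6
    have h8 : 2 ^ (m - 1) < 2 ^ m := Nat.pow_lt_pow_right (by norm_num) (by omega)
    omega
  refine ⟨hfin, ⟨⟨g, 1, ?_⟩⟩, ?_, ?_, ?_, ?_⟩
  · rintro rfl
    exact hg2 (one_pow _)
  · intro u
    exact ⟨m, Lib.MP_aafbbc_al.pow_eq_one (by omega) u⟩
  · rintro A B _ _ ⟨e⟩
    exact Lib.MP_aafbbc_al.indecomposable_aux (by omega) e
  · exact ⟨Quaternion (ZMod (2 ^ m)), inferInstance, inferInstance, inferInstance,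
      ⟨MulEquiv.refl _⟩⟩
  · rintro ⟨S, _, _, _, ⟨e⟩⟩
    have h1 : (e.symm g) ^ (2 ^ (m - 1 + 1)) = 1 := by
      rw [show m - 1 + 1 = m by omega, ← map_pow, hg1, map_one]
    have h2 : (e.symm g) ^ (2 ^ (m - 1)) ≠ 1 := by
      intro h
      apply hg2
      apply e.symm.injective
      rw [map_pow, h, map_one]
    have hb := Lib.MP_aafbbc_al.card_units_ge (e.symm g) (m - 1) h1 h2
    have hc : Nat.card Sˣ = Nat.card (Quaternion (ZMod (2 ^ m)))ˣ := Nat.card_congr e.toEquiv
    have hd : Nat.card (Quaternion (ZMod (2 ^ m)))ˣ ≤ Nat.card (Quaternion (ZMod (2 ^ m))) :=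
      Nat.card_le_card_of_injective _ Units.val_injective
    rw [Lib.MP_aafbbc_al.card_quaternion] at hd
    have he : 2 ^ (2 ^ (m - 1)) ≤ 2 ^ (4 * m) := by
      calc 2 ^ (2 ^ (m - 1)) ≤ Nat.card Sˣ := hb
        _ = _ := hc
        _ ≤ _ := hd
    have hf : 2 ^ (m - 1) ≤ 4 * m := (Nat.pow_le_pow_iff_right (by norm_num)).mp he
    have hk : ∀ k : ℕ, 4 * (k + 6) < 2 ^ (k + 5) := by
      intro k
      induction k with
      | zero => norm_num
      | succ k ih =>
        rw [show k + 1 + 5 = (k + 5) + 1 by ring, pow_succ]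
        omega
    have := hk (m - 6)
    rw [show m - 6 + 6 = m by omega, show m - 6 + 5 = m - 1 by omega] at this
    omega

end Pool.Agent.Results.MP_aafbbc_al.QuaternionUnits
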